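import Mathlib
import Pool.Agent.Helper58_RL.Diag

/-!
# Definitions for squad BCS (helper82, MP_fb4904_gt)

The plane is `ℂ`; `D` is the closed unit disc; `T^m = ℝ^m / ℤ^m`, functions on `T^m` are functions on
`Fin m → ℝ` which are `1`-periodic in each variable, and the integral over `T^m` is the integral over
`Icc 0 1`.
-/

noncomputable section

open scoped ContDiff Topology ComplexConjugate
open Set MeasureTheory

namespace Pool.Agent.BCS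

open Pool.Agent.SecondKind (Coord pd inv christoffel ricci)
open Pool.Agent.RLim.H58 (dg)

/-! ## the plane -/

section plane

variable {F : Type} [NormedAddCommGroup F] [NormedSpace ℝ F]

/-- `∂/∂x` -/
def dx (f : ℂ → F) (z : ℂ) : F := fderiv ℝ f z 1

/-- `∂/∂y` -/
def dy (f : ℂ → F) (z : ℂ) : F := fderiv ℝ f z Complex.I

/-- the radial derivative `x ∂/∂x + y ∂/∂y` -/
def rad (f : ℂ → F) (z : ℂ) : F := z.re • dx f z + z.im • dy f z

/-- the angular derivative `x ∂/∂y - y ∂/∂x` -/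
def ang (f : ℂ → F) (z : ℂ) : F := z.re • dy f z - z.im • dx f z

/-- the Laplacian -/
def lap (f : ℂ → F) (z : ℂ) : F := dx (dx f) z + dy (dy f) z

end plane

/-- `|∇f|²` -/
def grad2 (f : ℂ → ℝ) (z : ℂ) : ℝ := dx f z ^ 2 + dy f z ^ 2

/-- `∂w/∂z` -/
def dz (w : ℂ → ℂ) (z : ℂ) : ℂ := (1 / 2) * (dx w z - Complex.I * dy w z)

/-- `∂w/∂z̄` -/
def dzb (w : ℂ → ℂ) (z : ℂ) : ℂ := (1 / 2) * (dx w z + Complex.I * dy w z)

/-- the point `e^{iθ}` of the unit circle -/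
def cp (θ : ℝ) : ℂ := Complex.exp (θ * Complex.I)

/-- integral over the closed unit disc -/
def dI (f : ℂ → ℝ) : ℝ := ∫ z in Metric.closedBall (0 : ℂ) 1, f z

/-- integral over the unit circle with respect to the angle -/
def cI (f : ℂ → ℝ) : ℝ := ∫ θ in (0 : ℝ)..(2 * Real.pi), f (cp θ)

/-- the functions `u` with `Re (e^{iθ/2} u(e^{iθ})) = 0` -/
def V0 (u : ℂ → ℂ) : Prop :=
  ContDiff ℝ ∞ u ∧ ∀ ζ : ℂ, ‖ζ‖ = 1 → (ζ * u (ζ ^ 2)).re = 0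

/-- `X(θ) = Re (e^{iθ/2} w(e^{iθ}))` -/
def Xf (w : ℂ → ℂ) (θ : ℝ) : ℝ := (Complex.exp ((θ / 2 : ℝ) * Complex.I) * w (cp θ)).re

/-- `Z = e^{-p} (2 X' - p' X)` -/
def Zf (p X : ℝ → ℝ) (θ : ℝ) : ℝ := Real.exp (-p θ) * (2 * deriv X θ - deriv p θ * X θ)

/-! ## functions on `ℂ × T^m` -/

section torus

variable {m : ℕ}

/-- smooth and periodic in the second variable -/
structure SmP (χ : ℂ → (Fin m → ℝ) → ℝ) : Prop where
  smooth : ContDiff ℝ ∞ (fun p : ℂ × (Fin m → ℝ) => χ p.1 p.2)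
  per : ∀ z t i, χ z (t + Pi.single i 1) = χ z t

/-- integral over the torus -/
def tI (h : (Fin m → ℝ) → ℝ) : ℝ := ∫ t in Icc (0 : Fin m → ℝ) 1, h t

/-- the mean of `h(z, ·)` with the weight `e^{qχ}` -/
def mn (q : ℝ) (χ h : ℂ → (Fin m → ℝ) → ℝ) (z : ℂ) : ℝ :=
  tI (fun t => Real.exp (q * χ z t) * h z t) / tI (fun t => Real.exp (q * χ z t))

/-- `(1/q) log ∫ e^{qχ(z,t)} dt` -/
def lm (q : ℝ) (χ : ℂ → (Fin m → ℝ) → ℝ) (z : ℂ) : ℝ :=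
  (1 / q) * Real.log (tI (fun t => Real.exp (q * χ z t)))

/-- `min_t χ(z,t)` -/
def mu (χ : ℂ → (Fin m → ℝ) → ℝ) (z : ℂ) : ℝ := ⨅ t, χ z t

/-- `κ_i = 2α + ∑ β - β_i` -/
def kap (α : ℝ) (β : Fin m → ℝ) (i : Fin m) : ℝ := 2 * α + ∑ j, β j - β i

/-- `λ_i` -/
def lam (α : ℝ) (β : Fin m → ℝ) (i : Fin m) : ℝ :=
  kap α β i ^ 2 - 2 * β i * kap α β i + 2 * α ^ 2 + ∑ j, β j ^ 2 - β i ^ 2

/-- The scalar curvature of `e^{2φ(z) + 2αχ(z,t)} |dz|² + ∑ e^{2 f_i(z) + 2 β_i χ(z,t)} dt_i²`,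
multiplied with `e^{2φ(z) + 2αχ(z,t)}` -/
def sc (φ : ℂ → ℝ) (f : Fin m → ℂ → ℝ) (χ : ℂ → (Fin m → ℝ) → ℝ) (α : ℝ) (β : Fin m → ℝ)
    (z : ℂ) (t : Fin m → ℝ) : ℝ :=
  - 2 * lap φ z - 2 * (α + ∑ j, β j) * lap (fun z => χ z t) z - 2 * ∑ j, lap (f j) z
  - (∑ j, (dx (f j) z + β j * dx (fun z => χ z t) z)) ^ 2
  - (∑ j, (dy (f j) z + β j * dy (fun z => χ z t) z)) ^ 2
  - ∑ j, ((dx (f j) z + β j * dx (fun z => χ z t) z) ^ 2
      + (dy (f j) z + β j * dy (fun z => χ z t) z) ^ 2)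
  - ∑ i, Real.exp (2 * φ z + 2 * α * χ z t - 2 * f i z - 2 * β i * χ z t) *
      (2 * kap α β i * pd i (pd i (χ z)) t + lam α β i * pd i (χ z) t ^ 2)

end torus

/-! ## metrics on `D × T^m`

Coordinates `y = (y₀, y₁, y₂, …, y_{m+1})` on `ℝ^{m+2}`, `(y₀, y₁)` the coordinates of the disc. -/

section geometry

/-- scalar curvature -/
def scal {n : ℕ} (g : Coord n) (y : Fin n → ℝ) : ℝ := ∑ j, ∑ k, inv g j k y * ricci g j k y

variable {m : ℕ}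

/-- the differential of `ρ = (y₀² + y₁²)/2` -/
def drho (y : Fin (m + 2) → ℝ) (k : Fin (m + 2)) : ℝ :=
  if k = 0 then y 0 else if k = 1 then y 1 else 0

/-- The unit normal field `ν = ∇ρ / |∇ρ|` of the hypersurfaces `ρ = const`: outward unit normal of
the boundary `y₀² + y₁² = 1` -/
def nu (g : Coord (m + 2)) (k : Fin (m + 2)) (y : Fin (m + 2) → ℝ) : ℝ :=
  (∑ j, inv g k j y * drho y j) / √(∑ i, ∑ j, inv g i j y * drho y i * drho y j)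

/-- The mean curvature (sum of the principal curvatures with respect to the inward normal)
of the boundary `y₀² + y₁² = 1`: the divergence of the outward unit normal field -/
def meanCurv (g : Coord (m + 2)) (y : Fin (m + 2) → ℝ) : ℝ :=
  ∑ k, (pd k (nu g k) y + ∑ j, christoffel g k k j y * nu g j y)

/-- the point of the disc -/
def pr (y : Fin (m + 2) → ℝ) : ℂ := ⟨y 0, y 1⟩

/-- the coordinates on the torus -/
def tl (y : Fin (m + 2) → ℝ) (i : Fin m) : ℝ := y i.succ.succ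

/-- the logarithms of the coefficients of the metric
`e^{2φ(z) + 2αχ(z,t)} |dz|² + ∑ e^{2 f_i(z) + 2 β_i χ(z,t)} dt_i²` -/
def uu (φ : ℂ → ℝ) (f : Fin m → ℂ → ℝ) (χ : ℂ → (Fin m → ℝ) → ℝ) (α : ℝ) (β : Fin m → ℝ) :
    Fin (m + 2) → (Fin (m + 2) → ℝ) → ℝ :=
  Fin.cons (α := fun _ => (Fin (m + 2) → ℝ) → ℝ) (fun y => φ (pr y) + α * χ (pr y) (tl y))
    (Fin.cons (α := fun _ => (Fin (m + 2) → ℝ) → ℝ) (fun y => φ (pr y) + α * χ (pr y) (tl y))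
      (fun i y => f i (pr y) + β i * χ (pr y) (tl y)))

/-- the length of a closed curve `γ : [0, 2π] → ℝ^{m+2}` -/
def len (g : Coord (m + 2)) (γ : ℝ → Fin (m + 2) → ℝ) : ℝ :=
  ∫ θ in (0 : ℝ)..(2 * Real.pi),
    √(∑ i, ∑ j, g (γ θ) i j * deriv (fun s => γ s i) θ * deriv (fun s => γ s j) θ)

/-- Admissible closed curves in the boundary `S¹ × T^m` of `D × T^m`, described by their lifts to
`S¹ × ℝ^m`. A closed curve lifts to `γ` with `γ(θ + 2π) = γ(θ) + (0, 0, k)`, `k ∈ ℤ^m`, and the angle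
of `(γ₀, γ₁)` grows by `2πd`; its class in `H₁(S¹ × T^m) = ℤ ⊕ ℤ^m` is `(d, k)` and its class in
`H₁(D × T^m) = ℤ^m` is `k`: admissible means `k = 0` and `d ≠ 0`. -/
structure IsAdm (γ : ℝ → Fin (m + 2) → ℝ) : Prop where
  smooth : ContDiff ℝ ∞ γ
  closed : ∀ θ, γ (θ + 2 * Real.pi) = γ θ
  onY : ∀ θ, γ θ 0 ^ 2 + γ θ 1 ^ 2 = 1
  winds : ∃ (a : ℝ → ℝ) (d : ℤ), Continuous a ∧ d ≠ 0 ∧
    ∀ θ, γ θ 0 = Real.cos (a θ) ∧ γ θ 1 = Real.sin (a θ) ∧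
      a (θ + 2 * Real.pi) = a θ + 2 * Real.pi * d

end geometry

end Pool.Agent.BCS
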