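import Pool.Agent.BCS.Defs

/-!
# Statements of squad BCS (leader helper82, MP_fb4904_gt; proofs: note 4018 and the docstrings)

Prove each statement as a theorem in a module of your own, for example
`theorem grn : GrnStmt := ...`, with the statements named in the column `uses` as hypotheses
(for example `theorem key (h1 : GrnStmt) (h2 : PwiStmt) : KeyStmt`).
-/

noncomputable section

open scoped ContDiff Topology ComplexConjugate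
open Set MeasureTheory

namespace Pool.Agent.BCS

open Pool.Agent.SecondKind (Coord pd inv christoffel ricci)
open Pool.Agent.RLim.H58 (dg)

/-! ## A. the plane -/

/-- GRN. Green's formula on the disc. Polar coordinates (`Complex.integral_comp_polarCoord_symm`,
Fubini): with `G(r,θ) = g(re^{iθ})`, `r g_x = ∂_r (r G cos θ) - ∂_θ (G sin θ)`,
`r g_y = ∂_r (r G sin θ) + ∂_θ (G cos θ)`; the `θ`-derivatives integrate to `0` over a period. -/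
def GrnStmt : Prop := ∀ g : ℂ → ℝ, ContDiff ℝ 1 g →
  dI (dx g) = cI (fun z => z.re * g z) ∧ dI (dy g) = cI (fun z => z.im * g z)

/-- PWI. The pointwise inequality. `p = φ`, `E = e^{-φ}`, `e = e^φ`, `lp, lF` the Laplacians. The
difference right side minus left side is
`E * (P1 ^ 2 + P2 ^ 2 + 4 c (Q1 ^ 2 + Q2 ^ 2))`, `c = n / (4 (n - 2))`,
`P1 = (ux + vy) - (u px + v py) - (u Fx + v Fy) / 2`,
`P2 = (vx - uy) - (v px - u py) - (v Fx - u Fy) / 2`,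
`Q1 = ((u Fx - v Fy) - (ux - vy) / (2 c)) / 2 ... ` (a constant factor to be adjusted),
`Q2 = (-(u Fy + v Fx) + (vx + uy) / (2 c)) / 2`. -/
def PwiStmt : Prop := ∀ n u v ux uy vx vy px py Fx Fy lp lF E e : ℝ, 2 < n → 0 < E → E * e = 1 →
  (u ^ 2 + v ^ 2) * E * (-lp - lF - (n - 1) / (2 * (n - 2)) * (Fx ^ 2 + Fy ^ 2)
      + n * (n - 1) / 2 * e ^ 2) ≤
    (- ((2 * (u * ux + v * vx) - (u ^ 2 + v ^ 2) * px) * E * (px + Fx))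
      - ((2 * (u * uy + v * vy) - (u ^ 2 + v ^ 2) * py) * E * (py + Fy))
      - (u ^ 2 + v ^ 2) * E * (lp + lF)
      + 2 * E * (- px * (u * vy - v * uy) + py * (u * vx - v * ux) + 2 * (ux * vy - vx * uy))
      + (n - 1) * (2 * u * ux - 2 * v * vx - 2 * uy * v - 2 * u * vy))
    + 2 * (n - 1) / n * E *
      ((ux - vy - n / 2 * e * u) ^ 2 + (vx + uy + n / 2 * e * v) ^ 2)

/-- KEY. `w = u + iv`. Green (GRN) for the field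
`V₁ = -S (φ+F)_x + 2 e^{-φ} (u v_y - v u_y) + (n-1) (u² - v²)`,
`V₂ = -S (φ+F)_y - 2 e^{-φ} (u v_x - v u_x) - 2 (n-1) u v`, `S = (u² + v²) e^{-φ}`; its divergence is
the expression in the large brackets of PWI with `E = e^{-φ}`, `e = e^φ`, its normal component on the
circle is
`-S (φ_r + F_r) + 2 e^{-φ} Im(w̄ w_θ) + (n-1) Re(w² z)`; and `|w_z̄ - (n/4) e^φ w̄|² =
((u_x - v_y - (n/2) e^φ u)² + (v_x + u_y + (n/2) e^φ v)²) / 4`. -/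
def KeyStmt : Prop := ∀ (n : ℝ) (φ F : ℂ → ℝ) (w : ℂ → ℂ), 2 < n → ContDiff ℝ 2 φ →
  ContDiff ℝ 2 F → ContDiff ℝ 2 w →
  dI (fun z => Complex.normSq (w z) * Real.exp (-φ z) * (-lap φ z - lap F z
      - (n - 1) / (2 * (n - 2)) * grad2 F z + n * (n - 1) / 2 * Real.exp (2 * φ z)))
    + cI (fun z => Complex.normSq (w z) * Real.exp (-φ z) * (1 + rad φ z + rad F z))
  ≤ (n - 1) * cI (fun z => (w z ^ 2 * z).re)
    + 2 * cI (fun z => Real.exp (-φ z) * (conj (w z) * ang w z).im)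
    + cI (fun z => Complex.normSq (w z) * Real.exp (-φ z))
    + 8 * (n - 1) / n * dI (fun z => Real.exp (-φ z) *
        Complex.normSq (dzb w z - (n / 4 * Real.exp (φ z) : ℝ) * conj (w z)))

/-- the hypotheses of the two-dimensional estimate -/
def Hyp2 (n M : ℝ) (φ F : ℂ → ℝ) : Prop :=
  2 < n ∧ n - 1 < M ∧ ContDiff ℝ 2 φ ∧ ContDiff ℝ 2 F ∧
  (∀ z, ‖z‖ ≤ 1 → 0 ≤ -lap φ z - lap F z - (n - 1) / (2 * (n - 2)) * grad2 F z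
      + n * (n - 1) / 2 * Real.exp (2 * φ z)) ∧
  ∀ z, ‖z‖ = 1 → M * Real.exp (φ z) ≤ 1 + rad φ z + rad F z

/-- T2A. From KEY. `X + iY = e^{iθ/2} w(e^{iθ})`: `X² + Y² = |w|²`, `Re(w² e^{iθ}) = X² - Y²`,
`2 Im(w̄ w_θ) + |w|² = 2 (X Y' - Y X')` (`w_θ = ang w` along the circle); `X, Y` change sign under
`θ → θ + 2π`, so the integral of `(2 e^{-φ} X Y)'` over `[0, 2π]` is `0` and
`2 ∫ e^{-φ} (X Y' - Y X') = - 2 ∫ Y Z`, `Z = e^{-φ} (2 X' - (φ∘cp)' X)`. The left side of KEY is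
`≥ M ∫ (X² + Y²)` by the hypotheses. Then `-2 Y Z ≤ (M+n-1) Y² + Z² / (M+n-1)`. -/
def T2aStmt : Prop := ∀ (n M : ℝ) (φ F : ℂ → ℝ) (w : ℂ → ℂ), Hyp2 n M φ F → ContDiff ℝ 2 w →
  (M - (n - 1)) * ∫ θ in (0 : ℝ)..(2 * Real.pi), Xf w θ ^ 2 ≤
    (∫ θ in (0 : ℝ)..(2 * Real.pi), Zf (fun θ => φ (cp θ)) (Xf w) θ ^ 2) / (M + (n - 1))
    + 8 * (n - 1) / n * dI (fun z => Real.exp (-φ z) *
        Complex.normSq (dzb w z - (n / 4 * Real.exp (φ z) : ℝ) * conj (w z)))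

/-- COE. From GRN. With `u = a + ib`, `J = a_x b_y - b_x a_y`: `|u_z|² - |u_z̄|² = J` and
`2 J = div (a b_y - b a_y, -(a b_x - b a_x))`, so `4 ∫ J = 2 ∮ Im(ū u_θ) = - ∮ |u|²` because
`X = 0` on the circle (there `u = i e^{-iθ/2} Y`, `Im(ū u_θ) = -|u|²/2`; for example differentiate
`Re(e^{iθ/2} u(e^{iθ})) = 0`). Hence `4 ∫ |u_z|² + ∮ |u|² = 4 ∫ |u_z̄|²`. Green for the field
`|u|² (x, y)/2` gives `∫ |u|² ≤ ∮ |u|²/2 + ∫ |u| |∇u| ≤ ∮|u|²/2 + ∫|u|²/2 + ∫|∇u|²/2`,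
`|∇u|² = 2 (|u_z|² + |u_z̄|²)`: first claim with constant `6`. Second claim: `(u²)_z̄ = 2 u u_z̄`,
Green: `∫ u_z̄ u = (1/4) ∮ u² e^{iθ}`, and `Re (u² e^{iθ}) = X² - Y² = - Y² ≤ 0`. -/
def CoeStmt : Prop := ∀ u : ℂ → ℂ, V0 u →
  dI (fun z => Complex.normSq (u z)) ≤ 6 * dI (fun z => Complex.normSq (dzb u z)) ∧
  dI (fun z => (dzb u z * u z).re) ≤ 0

/-- TZR. Every polynomial `f` in `z, z̄` is `u_z̄` with `u ∈ V0`. For
`f = c z^a z̄^b` take `u = c/(b+1) z^a z̄^{b+1} + h`, `h = - c/(b+1) z^{a-b-1}` if `a ≥ b+1`, and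
`h = - c̄/(b+1) z^{b-a}` if `a ≤ b` (for `|ζ| = 1`: `ζ u(ζ²) = 0`, respectively `x - x̄`). -/
def TzrStmt : Prop := ∀ (N : ℕ) (c : ℕ → ℕ → ℂ), ∃ u : ℂ → ℂ, V0 u ∧
  ∀ z, dzb u z = ∑ a ∈ Finset.range N, ∑ b ∈ Finset.range N, c a b * z ^ a * conj z ^ b

/-- STW. Stone-Weierstrass on the closed disc (`ContinuousMap`, star subalgebra generated by the
identity). -/
def StwStmt : Prop := ∀ (R : ℂ → ℂ) (δ : ℝ), Continuous R → 0 < δ → ∃ (N : ℕ) (c : ℕ → ℕ → ℂ),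
  ∀ z : ℂ, ‖z‖ ≤ 1 →
    ‖R z - ∑ a ∈ Finset.range N, ∑ b ∈ Finset.range N, c a b * z ^ a * conj z ^ b‖ ≤ δ

/-- EXI. From COE, TZR, STW. Residual `R_v = (H+v)_z̄ - B conj(H+v)`, `Q(v) = ∫ |R_v|²/B`, `I` the
infimum of `Q` over `V0`. For `v ∈ V0`, `δ > 0` take `u ∈ V0` with `|R_v - u_z̄| ≤ δ` on the disc,
`f = u_z̄`, `e = R_v - f`. Then `R_{v - ωu} = (1-ω) f + e + ω B ū`,
`|R_{v-ωu}|²/B = |(1-ω)f + e|²/B + 2ω(1-ω) Re(f u) + 2ω Re(e u) + ω² B |u|²`, `∫ Re(f u) ≤ 0`,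
`∫ B|u|² ≤ 6 (max B) ∫ |f|² ≤ 6 (max B)² ∫ |f|²/B`: so
`Q(v - ωu) ≤ ((1-ω)² + C ω²) ∫ |f|²/B + K(v) δ`, `C = 6 (max B)²`, and `∫|f|²/B → Q(v)` as `δ → 0`.
With `ω = 1/(1+C)` the factor is `1 - ω`, so `I ≤ (1-ω) I`, `I = 0`. -/
def ExiStmt : Prop := ∀ (H : ℂ → ℂ) (B : ℂ → ℝ) (ε : ℝ), ContDiff ℝ 2 H → Continuous B →
  (∀ z, 0 < B z) → 0 < ε → ∃ v : ℂ → ℂ, V0 v ∧
    dI (fun z => Complex.normSq (dzb (fun z => H z + v z) z - (B z : ℂ) * conj (H z + v z)) / B z)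
      ≤ ε

/-- APX. `G(θ) = e^{iθ/2} X(θ)` is `2π`-periodic and `C¹`. Approximate `G'` uniformly by a
trigonometric polynomial (`span_fourier_closure_eq_top`), remove the mean value (`G'` has mean `0`),
integrate: `Q(θ) = ∑_{|k| ≤ K} c_k e^{ikθ}` close to `G` with its derivative. Then
`Re(e^{-iθ/2} c_k e^{ikθ})` is `Re(e^{iθ/2} c_k e^{i(k-1)θ})` for `k ≥ 1` and
`Re(e^{iθ/2} c̄_k e^{-ikθ})` for `k ≤ 0`. -/
def ApxStmt : Prop := ∀ (X : ℝ → ℝ) (ε : ℝ), ContDiff ℝ 1 X → (∀ θ, X (θ + 2 * Real.pi) = -X θ) →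
  0 < ε → ∃ p : Polynomial ℂ, ∀ θ, |Xf (fun z => p.eval z) θ - X θ| ≤ ε ∧
    |deriv (Xf (fun z => p.eval z)) θ - deriv X θ| ≤ ε

/-- TGT. The target function: `s(θ) = ∫_0^θ e^p`, `L = s(2π)`, `X = e^{p/2} cos(πs/L)`;
`Z = -(2π/L) e^{p/2} sin(πs/L)`; `∫ X² = L/2` (antiderivative `s/2 + (L/4π) sin(2πs/L)`),
`∫ Z² = (2π/L)² L/2`. -/
def TgtStmt : Prop := ∀ p : ℝ → ℝ, ContDiff ℝ 1 p → (∀ θ, p (θ + 2 * Real.pi) = p θ) →
  ∃ X : ℝ → ℝ, ContDiff ℝ 1 X ∧ (∀ θ, X (θ + 2 * Real.pi) = -X θ) ∧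
    (∫ θ in (0 : ℝ)..(2 * Real.pi), X θ ^ 2) = (∫ θ in (0 : ℝ)..(2 * Real.pi), Real.exp (p θ)) / 2 ∧
    (∫ θ in (0 : ℝ)..(2 * Real.pi), Zf p X θ ^ 2) =
      2 * Real.pi ^ 2 / ∫ θ in (0 : ℝ)..(2 * Real.pi), Real.exp (p θ)

/-- T2D. The two-dimensional estimate, from T2A, EXI, APX, TGT. `X` from TGT for `p = φ∘cp`; `p_k`
from APX with `ε = 1/k`; `v_k` from EXI with `H = p_k`, `B = (n/4) e^φ`, `ε = 1/k`; T2A for
`w = p_k + v_k` (`Xf w = Xf p_k` because `v_k ∈ V0`, `ζ = e^{iθ/2}`), `k → ∞`: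
`(M-(n-1)) L/2 ≤ 2π²/(L (M+n-1))`. -/
def T2dStmt : Prop := ∀ (n M : ℝ) (φ F : ℂ → ℝ), Hyp2 n M φ F →
  cI (fun z => Real.exp (φ z)) ≤ 2 * Real.pi / √(M ^ 2 - (n - 1) ^ 2)

/-! ## B. averaging over the torus -/

/-- DUI. Differentiation under the integral (`hasFDerivAt_integral_of_dominated_of_fderiv_le`,
bounds from compactness), and continuity of the result. -/
def DuiStmt : Prop := ∀ (m : ℕ) (h : ℂ → (Fin m → ℝ) → ℝ),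
  ContDiff ℝ ∞ (fun p : ℂ × (Fin m → ℝ) => h p.1 p.2) →
  ContDiff ℝ ∞ (fun z => tI (h z)) ∧
  (∀ z, dx (fun z => tI (h z)) z = tI (fun t => dx (fun z => h z t) z)) ∧
  ∀ z, dy (fun z => tI (h z)) z = tI (fun t => dy (fun z => h z t) z)

/-- IBT. Integral of a derivative of a periodic function (for `m = k + 1`:
`MeasureTheory.integral_divergence_of_hasFDerivAt_off_countable` with only the `i`-th component
nonzero). -/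
def IbtStmt : Prop := ∀ (m : ℕ) (F : (Fin m → ℝ) → ℝ) (i : Fin m), ContDiff ℝ 1 F →
  (∀ t, F (t + Pi.single i 1) = F t) → tI (pd i F) = 0

/-- MIN. The minimum over the torus: attained, continuous (inf over a compact set of a jointly
continuous function; for example `IsCompact.continuous_sInf`-type lemmas or uniform continuity on
compact sets). -/
def MinStmt : Prop := ∀ (m : ℕ) (χ : ℂ → (Fin m → ℝ) → ℝ), SmP χ →
  Continuous (mu χ) ∧ (∀ z t, mu χ z ≤ χ z t) ∧ ∀ z, ∃ t, χ z t = mu χ z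

/-- AVD. From DUI. Derivatives of `lm q χ = (1/q) log ∫ e^{qχ}`. -/
def AvdStmt : Prop := ∀ (m : ℕ) (χ : ℂ → (Fin m → ℝ) → ℝ) (q : ℝ), SmP χ → q ≠ 0 →
  ContDiff ℝ ∞ (lm q χ) ∧
  (∀ z, dx (lm q χ) z = mn q χ (fun z t => dx (fun z => χ z t) z) z) ∧
  (∀ z, dy (lm q χ) z = mn q χ (fun z t => dy (fun z => χ z t) z) z) ∧
  ∀ z, lap (lm q χ) z = mn q χ (fun z t => lap (fun z => χ z t) z) z
    + q * (mn q χ (fun z t => grad2 (fun z => χ z t) z) z - grad2 (lm q χ) z)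

/-- FIB. From IBT for `F = e^{rχ} ∂_i χ`. -/
def FibStmt : Prop := ∀ (m : ℕ) (h : (Fin m → ℝ) → ℝ) (i : Fin m) (r : ℝ), ContDiff ℝ ∞ h →
  (∀ t j, h (t + Pi.single j 1) = h t) →
  tI (fun t => Real.exp (r * h t) * pd i (pd i h) t) =
    - r * tI (fun t => Real.exp (r * h t) * pd i h t ^ 2)

/-- the hypotheses on the functions of the main theorem -/
structure HypC {m : ℕ} (M : ℝ) (φ : ℂ → ℝ) (f : Fin m → ℂ → ℝ) (χ : ℂ → (Fin m → ℝ) → ℝ)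
    (α : ℝ) (β : Fin m → ℝ) : Prop where
  hm : 1 ≤ m
  hM : (m : ℝ) + 1 < M
  hφ : ContDiff ℝ ∞ φ
  hf : ∀ i, ContDiff ℝ ∞ (f i)
  hχ : SmP χ
  hαβ : 0 ≤ α + ∑ j, β j
  hκ : ∀ i, 0 ≤ kap α β i
  hsc : ∀ z, ‖z‖ ≤ 1 → ∀ t, -(((m : ℝ) + 2) * (m + 1)) * Real.exp (2 * φ z + 2 * α * χ z t) ≤
    sc φ f χ α β z t
  hbd : ∀ z, ‖z‖ = 1 → ∀ t, M * Real.exp (φ z + α * χ z t) ≤
    1 + rad φ z + ∑ j, rad (f j) z + (α + ∑ j, β j) * rad (fun z => χ z t) z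

/-- AVI. From AVD, FIB. Take the mean `E = mn q χ` of `hsc` and `hbd` for fixed `z`, write
`X = lm q χ`. The `t`-part: by FIB
`E[e^{(2α-2β_i)χ} (2κ_i χ_ii + λ_i χ_i²)] = (λ_i - 2κ_i(q + 2α - 2β_i)) E[e^{(2α-2β_i)χ} χ_i²] ≥ 0`
for `2q ≤ ∑β + β_i - 2α`. The `z`-part: `E[lap χ] = lap X - q (E|∇χ|² - |∇X|²)`,
`E[(a + bχ_x)²] = (a + bX_x)² + b² (Eχ_x² - X_x²)`, and `E χ_x² ≥ X_x²`; the coefficient of the
variance, `2(α+∑β)q - (∑β)² - ∑β²`, is `≤ 0`. Finally with `n = m+2`, `a_j = ∇(f_j + β_j X)`: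
`(1/2)(|∑ a_j|² + ∑|a_j|²) ≥ (n-1)/(2(n-2)) |∑ a_j|²` (Cauchy-Schwarz). -/
def AviStmt : Prop := ∀ (m : ℕ) (M : ℝ) (φ : ℂ → ℝ) (f : Fin m → ℂ → ℝ)
  (χ : ℂ → (Fin m → ℝ) → ℝ) (α : ℝ) (β : Fin m → ℝ) (q : ℝ), HypC M φ f χ α β → q < 0 →
  (∀ i, 2 * q ≤ ∑ j, β j + β i - 2 * α) →
  (∀ z, ‖z‖ ≤ 1 → 0 ≤ -lap (fun z => φ z + α * lm q χ z) z
      - lap (fun z => ∑ j, (f j z + β j * lm q χ z)) z
      - ((m : ℝ) + 1) / (2 * m) * grad2 (fun z => ∑ j, (f j z + β j * lm q χ z)) z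
      + ((m : ℝ) + 2) * (m + 1) / 2 * Real.exp (2 * φ z)
        * mn q χ (fun z t => Real.exp (2 * α * χ z t)) z) ∧
  ∀ z, ‖z‖ = 1 → M * Real.exp (φ z) * mn q χ (fun z t => Real.exp (α * χ z t)) z ≤
    1 + rad (fun z => φ z + α * lm q χ z) z + rad (fun z => ∑ j, (f j z + β j * lm q χ z)) z

/-- LIM. From MIN. Uniform limits as `q → -∞` (`a` of any sign; used for `a = α` and `a = 2α`).
`χ` is Lipschitz in `t` with a constant `K` uniform in the disc;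
`∫ e^{qχ} ≥ e^{q(μ + Kr)} vol(part in [0,1]^m of the cube of side r at the minimum)` for `q < 0` (the
minimum point can be taken in `[0,1]^m` by periodicity), `∫ e^{qχ} ≤ e^{qμ}`: this gives the bounds
for `lm`. With `W = {χ ≤ μ + δ}`: on `W` `|aχ - aμ| ≤ |a| δ`; outside `W`, for `q + |a| < 0`,
`∫ e^{(q+a)χ} ≤ e^{(q+a)(μ+δ)}`, which divided by `∫ e^{qχ} ≥ e^{q(μ+Kr)} v` tends to `0` relative
to `e^{aμ}` if `Kr < δ` (`μ` is bounded on the disc); and the fraction of `∫ e^{qχ}` outside `W`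
tends to `0` (case `a = 0`), which gives the lower bound. -/
def LimStmt : Prop := ∀ (m : ℕ) (χ : ℂ → (Fin m → ℝ) → ℝ) (a ε : ℝ), SmP χ → 0 < ε →
  ∃ q0 < 0, ∀ q ≤ q0, ∀ z : ℂ, ‖z‖ ≤ 1 →
    mu χ z ≤ lm q χ z ∧ lm q χ z ≤ mu χ z + ε ∧
    mn q χ (fun z t => Real.exp (a * χ z t)) z ≤ Real.exp (a * mu χ z + ε) ∧
    Real.exp (a * mu χ z - ε) ≤ mn q χ (fun z t => Real.exp (a * χ z t)) z

/-- C2D. From T2D, AVD, MIN, AVI, LIM. For `ε > 0` and `q` very negative (LIM with `a = 2α` and with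
`a = α`) put `δ = (1 + |α|) ε`, `φ' = φ + α lm q χ + δ`, `F = ∑ (f_j + β_j lm q χ)`, `n = m + 2`,
`M' = M e^{-2δ}`: the hypotheses of T2D hold because `|α lm - αμ| ≤ |α| ε`, so
`∫ e^{φ+αμ} ≤ ∫ e^{φ'} ≤ 2π/√(M'² - (m+1)²)`; let `ε → 0`. -/
def C2dStmt : Prop := ∀ (m : ℕ) (M : ℝ) (φ : ℂ → ℝ) (f : Fin m → ℂ → ℝ)
  (χ : ℂ → (Fin m → ℝ) → ℝ) (α : ℝ) (β : Fin m → ℝ), HypC M φ f χ α β →
  cI (fun z => Real.exp (φ z + α * mu χ z)) ≤ 2 * Real.pi / √(M ^ 2 - ((m : ℝ) + 1) ^ 2)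

/-- CRV. From MIN. If `∫ e^{αχ(z,t)} dt ≤ K e^{αμ(z)}` on the circle, then some curve `t = const` has
length at most `K` times the integral of `e^{φ+αμ}` (Fubini over `T^m × [0, 2π]`, the torus has
volume `1`: some `t` is at most the mean). -/
def CrvStmt : Prop := ∀ (m : ℕ) (φ : ℂ → ℝ) (χ : ℂ → (Fin m → ℝ) → ℝ) (α K : ℝ),
  ContDiff ℝ ∞ φ → SmP χ →
  (∀ z, ‖z‖ = 1 → tI (fun t => Real.exp (α * χ z t)) ≤ K * Real.exp (α * mu χ z)) →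
  ∃ t : Fin m → ℝ, cI (fun z => Real.exp (φ z + α * χ z t)) ≤
    K * cI (fun z => Real.exp (φ z + α * mu χ z))

/-! ## C. Riemannian geometry -/

/-- SCD. Scalar curvature of the diagonal metric `∑ e^{2u_i} dy_i²`: from `christoffel_dg` and
`pd_christoffel_dg` (Helper58_RL/Diag.lean). For `i ≠ j`,
`curv i j j i = -(∂_i² u_j + (∂_i u_j)² - ∂_i u_i ∂_i u_j)
 - e^{2(u_j - u_i)} ... - ∑_{k ≠ i,j} e^{2(u_j - u_k)} ∂_k u_i ∂_k u_j` (times the factor which makes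
`e^{-2u_j} curv i j j i = K_ij` symmetric), `K_ij = - e^{-2u_i} (∂_i²u_j + (∂_iu_j)² - ∂_iu_i ∂_iu_j)
 - e^{-2u_j} (∂_j²u_i + (∂_ju_i)² - ∂_ju_j ∂_ju_i) - ∑_{k≠i,j} e^{-2u_k} ∂_ku_i ∂_ku_j`. -/
def ScdStmt : Prop := ∀ (n : ℕ) (u : Fin n → (Fin n → ℝ) → ℝ), (∀ i, ContDiff ℝ ∞ (u i)) →
  ∀ y, scal (dg u) y = - ∑ i, Real.exp (-(2 * u i y)) *
    ((∑ j ∈ Finset.univ.erase i, (2 * pd i (pd i (u j)) y - 2 * pd i (u i) y * pd i (u j) y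
        + pd i (u j) y ^ 2))
      + (∑ j ∈ Finset.univ.erase i, pd i (u j) y) ^ 2)

/-- SCC. From SCD: the metrics of the main theorem. For `i = 0, 1` (with `U = u_0 = u_1`,
`G = ∑ u_{i+2}`) the two brackets add up to `2ΔU + 2ΔG + |∇G|² + ∑ |∇u_{i+2}|²`; for `i + 2` the
bracket is `2κ_i χ_ii + λ_i χ_i²`. -/
def SccStmt : Prop := ∀ (m : ℕ) (φ : ℂ → ℝ) (f : Fin m → ℂ → ℝ) (χ : ℂ → (Fin m → ℝ) → ℝ)
  (α : ℝ) (β : Fin m → ℝ), ContDiff ℝ ∞ φ → (∀ i, ContDiff ℝ ∞ (f i)) →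
  ContDiff ℝ ∞ (fun p : ℂ × (Fin m → ℝ) => χ p.1 p.2) → ∀ y : Fin (m + 2) → ℝ,
  Real.exp (2 * φ (pr y) + 2 * α * χ (pr y) (tl y)) * scal (dg (uu φ f χ α β)) y =
    sc φ f χ α β (pr y) (tl y)

/-- HMD. Mean curvature of the boundary for the metrics of the main theorem: `ν_k = e^{-U} y_k/|y|`
near the circle, `∑_k Γ^k_{kj} = ∂_j (2U + G)`, `div ν = e^{-U} (1 + (U + G)_r)`. -/
def HmdStmt : Prop := ∀ (m : ℕ) (φ : ℂ → ℝ) (f : Fin m → ℂ → ℝ) (χ : ℂ → (Fin m → ℝ) → ℝ)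
  (α : ℝ) (β : Fin m → ℝ), ContDiff ℝ ∞ φ → (∀ i, ContDiff ℝ ∞ (f i)) →
  ContDiff ℝ ∞ (fun p : ℂ × (Fin m → ℝ) => χ p.1 p.2) → ∀ y : Fin (m + 2) → ℝ, ‖pr y‖ = 1 →
  meanCurv (dg (uu φ f χ α β)) y = Real.exp (-(φ (pr y) + α * χ (pr y) (tl y))) *
    (1 + rad φ (pr y) + ∑ j, rad (f j) (pr y) + (α + ∑ j, β j) * rad (fun z => χ z (tl y)) (pr y))

/-- LEN. The curves `t = const` are admissible and have length `∫ e^{φ+αχ}`. -/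
def LenStmt : Prop := ∀ (m : ℕ) (φ : ℂ → ℝ) (f : Fin m → ℂ → ℝ) (χ : ℂ → (Fin m → ℝ) → ℝ)
  (α : ℝ) (β t : Fin m → ℝ), ∃ γ : ℝ → Fin (m + 2) → ℝ, IsAdm γ ∧
    (∀ θ, pr (γ θ) = cp θ ∧ tl (γ θ) = t) ∧
    len (dg (uu φ f χ α β)) γ = cI (fun z => Real.exp (φ z + α * χ z t))

end Pool.Agent.BCS
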