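import Pool.Agent.BCS.Stmts

/-!
# Statements of squad BCS, part 2 (leader helper82, MP_fb4904_gt): arbitrary families of fibre metrics

`g = e^{2φ(z)} |dz|² + ∑ h_ij(z,t) dt_i dt_j` on `D × T^m`.
-/

noncomputable section

open scoped ContDiff Topology ComplexConjugate
open Set MeasureTheory

namespace Pool.Agent.BCS

open Pool.Agent.SecondKind (Coord pd inv christoffel ricci)
open Pool.Agent.RLim.H58 (dg)

variable {m : ℕ}

/-- A smooth family, parametrized by `z ∈ ℂ`, of Riemannian metrics `h(z, ·)` on the torus `T^m` -/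
structure FibM (h : ℂ → Coord m) : Prop where
  smooth : ∀ i j, ContDiff ℝ ∞ (fun p : ℂ × (Fin m → ℝ) => h p.1 p.2 i j)
  per : ∀ z t l, h z (t + Pi.single l 1) = h z t
  symm : ∀ z t i j, h z t i j = h z t j i
  pos : ∀ z t (v : Fin m → ℝ), v ≠ 0 → 0 < ∑ i, ∑ j, h z t i j * v i * v j

/-- `log √det h` -/
def lvol (h : ℂ → Coord m) (z : ℂ) (t : Fin m → ℝ) : ℝ :=
  Real.log (Matrix.of (h z t)).det / 2

/-- `tr ((h⁻¹ S)²)` for the matrix `S` -/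
def trq (h : Fin m → Fin m → ℝ) (S : Fin m → Fin m → ℝ) : ℝ :=
  ((Matrix.of h)⁻¹ * Matrix.of S * ((Matrix.of h)⁻¹ * Matrix.of S)).trace

/-- the metric `e^{2φ(z)} |dz|² + ∑ h_ij(z,t) dt_i dt_j` -/
def blk (φ : ℂ → ℝ) (h : ℂ → Coord m) : Coord (m + 2) := fun y =>
  Fin.cons (α := fun _ => Fin (m + 2) → ℝ)
    (Fin.cons (α := fun _ => ℝ) (Real.exp (2 * φ (pr y))) (fun _ => 0))
    (Fin.cons (α := fun _ => Fin (m + 2) → ℝ)
      (Fin.cons (α := fun _ => ℝ) 0 (Fin.cons (α := fun _ => ℝ) (Real.exp (2 * φ (pr y)))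
        (fun _ => 0)))
      (fun i => Fin.cons (α := fun _ => ℝ) 0 (Fin.cons (α := fun _ => ℝ) 0
        (fun j => h (pr y) (tl y) i j))))

/-- GSM. `det h > 0` (positive definite symmetric matrix), the determinant is a polynomial in the
entries, so `log √det h` is smooth and periodic. -/
def GsmStmt : Prop := ∀ (m : ℕ) (h : ℂ → Coord m), FibM h →
  (∀ z t, 0 < (Matrix.of (h z t)).det) ∧ SmP (lvol h)

/-- CNS. The scalar curvature of a smooth positive definite metric is a continuous function (entries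
of the inverse: `Matrix.inv_def`, adjugate and determinant; all `pd` of smooth functions are smooth;
then Christoffel symbols, `curv`, `ricci`, `scal` are smooth). -/
def CnsStmt : Prop := ∀ (m : ℕ) (h : ℂ → Coord m), FibM h → ∀ z, Continuous (fun t => scal (h z) t)

/-- TRJ. Jacobi's formula `∂ log √det h = (1/2) tr(h⁻¹ ∂h)` (the derivative of `det`:
`Matrix.adjugate`, multilinearity; or `HasFDerivAt` of `det` if in Mathlib) and
`tr((h⁻¹ S)²) ≥ (tr(h⁻¹ S))²/m` for symmetric `S` and positive definite `h` (with `P² = h⁻¹`,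
`P` symmetric: `tr(P S P P S P) = ∑ of the squares of the entries of PSP ≥ (tr PSP)²/m`). -/
def TrjStmt : Prop := ∀ (m : ℕ) (h : ℂ → Coord m), FibM h → ∀ z t,
  grad2 (fun z => lvol h z t) z ≤ m / 4 * (trq (h z t) (fun i j => dx (fun z => h z t i j) z)
    + trq (h z t) (fun i j => dy (fun z => h z t i j) z))

/-- BLK. The scalar curvature of `e^{2φ(z)} |dz|² + h(z,t)`. With base indices `a, b, c ∈ {0, 1}`,
fibre indices `i, j, k, l`, `A_a = h⁻¹ ∂_a h`, `G = log √det h`, `γ` the Christoffel symbols of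
`h(z, ·)`:
`Γ^c_ab = δ_cb φ_a + δ_ca φ_b - δ_ab φ_c`, `Γ^i_ab = 0`, `Γ^c_ai = 0`, `Γ^i_aj = (1/2) (A_a)^i_j`,
`Γ^c_ij = -(1/2) e^{-2φ} ∂_c h_ij`, `Γ^k_ij = γ^k_ij`; `T_p = ∑_i Γ^i_ip`: `T_a = 2φ_a + G_a`,
`T_l = ∂_l G`.
`∑ g^{jk} Ric_jk`, base part: `e^{-2φ} ∑_a Ric_aa`, and `∑_a Γ^c_aa = 0`,
`∑_{a,b,c} Γ^c_ab Γ^b_ca = 0`, so it is `e^{-2φ} (-2Δφ - ΔG - (1/4) ∑_a tr A_a²)`.
Fibre part: the terms with fibre indices only give `Sc(h)`; the others give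
`e^{-2φ} ∑_c (φ_c tr A_c - (1/2) h^{jk} ∂_c² h_jk - (1/2)(2φ_c + G_c) tr A_c + (1/2) tr A_c²)`,
`tr A_c = 2 G_c`, `h^{jk} ∂_c² h_jk = 2 ∂_c² G + tr A_c²`: `e^{-2φ} (-ΔG - |∇G|²)`. -/
def BlkStmt : Prop := ∀ (m : ℕ) (φ : ℂ → ℝ) (h : ℂ → Coord m), ContDiff ℝ ∞ φ → FibM h →
  ∀ y : Fin (m + 2) → ℝ, scal (blk φ h) y =
    Real.exp (-(2 * φ (pr y))) * (-2 * lap φ (pr y) - 2 * lap (fun z => lvol h z (tl y)) (pr y)
      - grad2 (fun z => lvol h z (tl y)) (pr y)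
      - (1 / 4) * (trq (h (pr y) (tl y)) (fun i j => dx (fun z => h z (tl y) i j) (pr y))
        + trq (h (pr y) (tl y)) (fun i j => dy (fun z => h z (tl y) i j) (pr y))))
    + scal (h (pr y)) (tl y)

/-- HMB. Mean curvature of the boundary (twin of HMD, Helper46_BCS/HMD.lean):
`ν_a = e^{-φ} y_a/|y|`, `ν_i = 0`, `∑_k Γ^k_ka = ∂_a (2φ + G)`. -/
def HmbStmt : Prop := ∀ (m : ℕ) (φ : ℂ → ℝ) (h : ℂ → Coord m), ContDiff ℝ ∞ φ → FibM h →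
  ∀ y : Fin (m + 2) → ℝ, ‖pr y‖ = 1 → meanCurv (blk φ h) y =
    Real.exp (-φ (pr y)) * (1 + rad φ (pr y) + rad (fun z => lvol h z (tl y)) (pr y))

/-- LNB. The curves `t = const` (twin of LEN, Helper24_BCS/LEN.lean). -/
def LnbStmt : Prop := ∀ (m : ℕ) (φ : ℂ → ℝ) (h : ℂ → Coord m) (t : Fin m → ℝ),
  ∃ γ : ℝ → Fin (m + 2) → ℝ, IsAdm γ ∧ (∀ θ, pr (γ θ) = cp θ ∧ tl (γ θ) = t) ∧
    len (blk φ h) γ = cI (fun z => Real.exp (φ z))

/-- the hypotheses on the functions -/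
structure HypB {m : ℕ} (M q : ℝ) (φ : ℂ → ℝ) (h : ℂ → Coord m) : Prop where
  hm : 1 ≤ m
  hM : (m : ℝ) + 1 < M
  hφ : ContDiff ℝ ∞ φ
  hh : FibM h
  hq : q ≠ 0
  hq2 : 2 * m * q ≤ m + 1
  hfib : ∀ z, ‖z‖ ≤ 1 → tI (fun t => Real.exp (q * lvol h z t) * scal (h z) t) ≤ 0
  hsc : ∀ z, ‖z‖ ≤ 1 → ∀ t, -(((m : ℝ) + 2) * (m + 1)) ≤
    Real.exp (-(2 * φ z)) * (-2 * lap φ z - 2 * lap (fun z => lvol h z t) z
      - grad2 (fun z => lvol h z t) z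
      - (1 / 4) * (trq (h z t) (fun i j => dx (fun z => h z t i j) z)
        + trq (h z t) (fun i j => dy (fun z => h z t i j) z)))
    + scal (h z) t
  hbd : ∀ z, ‖z‖ = 1 → ∀ t, M ≤ Real.exp (-φ z) * (1 + rad φ z + rad (fun z => lvol h z t) z)

/-- AVB. From AVD, GSM, CNS, TRJ. `G = lvol h`, `E = mn q G`, `X = lm q G`. By TRJ
`-(1/4)(tr + tr) ≤ -|∇G|²/m`, so `0 ≤ n(n-1) e^{2φ} - 2Δφ - 2ΔG - (1+1/m)|∇G|² + e^{2φ} Sc(h)`; take
`E`: `E ΔG = ΔX - q (E|∇G|² - |∇X|²)`, `E|∇G|² ≥ |∇X|²` (Cauchy-Schwarz), `E Sc(h) ≤ 0` (continuous,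
CNS), `2q ≤ 1 + 1/m`: `0 ≤ n(n-1) e^{2φ} - 2Δφ - 2ΔX - (1+1/m)|∇X|²`, `n = m + 2`. The boundary
condition averages exactly. -/
def AvbStmt : Prop := ∀ (m : ℕ) (M q : ℝ) (φ : ℂ → ℝ) (h : ℂ → Coord m), HypB M q φ h →
  Hyp2 ((m : ℝ) + 2) M φ (lm q (lvol h))

end Pool.Agent.BCS
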