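import Pool.Agent.BCS.Stmts2

/-!
# Statements of squad BCS, part 3 (leader helper82, MP_fb4904_gt)

`g = e^{2φ(z) + 2αχ(z,t)} |dz|² + e^{2βχ(z,t)} ∑ k_ij(z,t) dt_i dt_j` on `D × T^m`, where `det k` does not
depend on `t` and the scalar curvature of the fibre metrics `k(z, ·)` is `≤ 0`.
-/

noncomputable section

open scoped ContDiff Topology ComplexConjugate
open Set MeasureTheory

namespace Pool.Agent.BCS

open Pool.Agent.SecondKind (Coord pd inv christoffel ricci)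
open Pool.Agent.RLim.H58 (dg)

variable {m : ℕ}

/-- a smooth Riemannian metric on `ℝ^m` -/
structure Met (k : Coord m) : Prop where
  smooth : ∀ i j, ContDiff ℝ ∞ (fun t => k t i j)
  symm : ∀ t i j, k t i j = k t j i
  pos : ∀ t (v : Fin m → ℝ), v ≠ 0 → 0 < ∑ i, ∑ j, k t i j * v i * v j

/-- `⟨∇v, ∇w⟩` for the metric `k` -/
def gip (k : Coord m) (v w : (Fin m → ℝ) → ℝ) (t : Fin m → ℝ) : ℝ :=
  ∑ i, ∑ j, inv k i j t * pd i v t * pd j w t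

/-- the Laplacian of `v` for the metric `k` -/
def lapM (k : Coord m) (v : (Fin m → ℝ) → ℝ) (t : Fin m → ℝ) : ℝ :=
  ∑ i, ∑ j, inv k i j t * (pd i (pd j v) t - ∑ l, christoffel k l i j t * pd l v t)

/-- the metric `e^{2v} k` -/
def cfm (v : (Fin m → ℝ) → ℝ) (k : Coord m) : Coord m := fun t i j => Real.exp (2 * v t) * k t i j

/-- the metric `e^{2U(z,t)} |dz|² + ∑ h_ij(z,t) dt_i dt_j` -/
def blkU (U : ℂ → (Fin m → ℝ) → ℝ) (h : ℂ → Coord m) : Coord (m + 2) := fun y =>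
  Fin.cons (α := fun _ => Fin (m + 2) → ℝ)
    (Fin.cons (α := fun _ => ℝ) (Real.exp (2 * U (pr y) (tl y))) (fun _ => 0))
    (Fin.cons (α := fun _ => Fin (m + 2) → ℝ)
      (Fin.cons (α := fun _ => ℝ) 0 (Fin.cons (α := fun _ => ℝ) (Real.exp (2 * U (pr y) (tl y)))
        (fun _ => 0)))
      (fun i => Fin.cons (α := fun _ => ℝ) 0 (Fin.cons (α := fun _ => ℝ) 0
        (fun j => h (pr y) (tl y) i j))))

/-- the metric of part 3 -/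
def mt3 (φ : ℂ → ℝ) (k : ℂ → Coord m) (χ : ℂ → (Fin m → ℝ) → ℝ) (α β : ℝ) : Coord (m + 2) :=
  blkU (fun z t => φ z + α * χ z t) (fun z => cfm (fun t => β * χ z t) (k z))

/-- `κ = 2α + (m-1) β` -/
def kap3 (m : ℕ) (α β : ℝ) : ℝ := 2 * α + ((m : ℝ) - 1) * β

/-- `Λ = 6α² + 4(m-2) αβ + (m-1)(m-2) β²` -/
def lam3 (m : ℕ) (α β : ℝ) : ℝ :=
  6 * α ^ 2 + 4 * ((m : ℝ) - 2) * α * β + ((m : ℝ) - 1) * ((m : ℝ) - 2) * β ^ 2

/-- an upper bound of `e^{2φ + 2αχ}` times the scalar curvature of `mt3` -/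
def sc3 (φ F : ℂ → ℝ) (k : ℂ → Coord m) (χ : ℂ → (Fin m → ℝ) → ℝ) (α β : ℝ) (z : ℂ)
    (t : Fin m → ℝ) : ℝ :=
  -2 * lap φ z - 2 * lap F z - 2 * (α + m * β) * lap (fun z => χ z t) z
  - ((m : ℝ) + 1) / m * ((dx F z + m * β * dx (fun z => χ z t) z) ^ 2
      + (dy F z + m * β * dy (fun z => χ z t) z) ^ 2)
  + Real.exp (2 * φ z + 2 * (α - β) * χ z t) * (scal (k z) t
      - 2 * kap3 m α β * lapM (k z) (χ z) t - lam3 m α β * gip (k z) (χ z) (χ z) t)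

/-- BLG. The scalar curvature of `e^{2U(z,t)} |dz|² + h(z,t)` (BLK with a base factor depending on
`t`). New Christoffel symbols: `Γ^i_ab = - δ_ab e^{2U} h^{ij} U_j`, `Γ^a_bi = δ_ab U_i`; `T_a = 2U_a + G_a`,
`T_l = 2U_l + G_l`; the terms with a base index only through these give `-4 Δ_h U - 6 |∇_h U|²`
(`2 Δ_h U` twice: `∑_a e^{-2U} ∇_i Γ^i_aa = -2 Δ_h U - 4|∇U|²` and `- h^{jk} ∂_j∂_k (2U)` with its
Christoffel term; check with the diagonal metric SCD: fibre bracket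
`2 W_ii - 2 u_{i,i} W_i + W_i² + 2 U_i² + ∑_{j≠i} u_{j,i}²`, `W = 2U + G - u_i`). -/
def BlgStmt : Prop := ∀ (m : ℕ) (U : ℂ → (Fin m → ℝ) → ℝ) (h : ℂ → Coord m),
  ContDiff ℝ ∞ (fun p : ℂ × (Fin m → ℝ) => U p.1 p.2) → FibM h →
  ∀ y : Fin (m + 2) → ℝ, scal (blkU U h) y =
    Real.exp (-(2 * U (pr y) (tl y))) * (-2 * lap (fun z => U z (tl y)) (pr y)
      - 2 * lap (fun z => lvol h z (tl y)) (pr y)
      - grad2 (fun z => lvol h z (tl y)) (pr y)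
      - (1 / 4) * (trq (h (pr y) (tl y)) (fun i j => dx (fun z => h z (tl y) i j) (pr y))
        + trq (h (pr y) (tl y)) (fun i j => dy (fun z => h z (tl y) i j) (pr y))))
    + scal (h (pr y)) (tl y) - 4 * lapM (h (pr y)) (U (pr y)) (tl y)
    - 6 * gip (h (pr y)) (U (pr y)) (U (pr y)) (tl y)

/-- CNF. Conformal change of the scalar curvature in dimension `m`:
`Γ̃^k_ij = Γ^k_ij + δ^k_i v_j + δ^k_j v_i - k_ij v^k`,
`Ric̃ = Ric - (m-2)(∇²v - dv⊗dv) - (Δv + (m-2)|∇v|²) k`. -/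
def CnfStmt : Prop := ∀ (m : ℕ) (k : Coord m) (v : (Fin m → ℝ) → ℝ), Met k → ContDiff ℝ ∞ v →
  ∀ t, scal (cfm v k) t = Real.exp (-(2 * v t)) * (scal k t - 2 * ((m : ℝ) - 1) * lapM k v t
    - ((m : ℝ) - 1) * ((m : ℝ) - 2) * gip k v v t)

/-- LCF. Laplacian and gradients under a conformal change (Christoffel symbols as in CNF);
for `m = 0` both sides are `0`. -/
def LcfStmt : Prop := ∀ (m : ℕ) (k : Coord m) (v w : (Fin m → ℝ) → ℝ), Met k → ContDiff ℝ ∞ v →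
  ContDiff ℝ ∞ w → ∀ t,
  lapM (cfm v k) w t = Real.exp (-(2 * v t)) * (lapM k w t + ((m : ℝ) - 2) * gip k v w t) ∧
  gip (cfm v k) w w t = Real.exp (-(2 * v t)) * gip k w w t

/-- IBK. From IBT. If `det k` is constant, then `∑_ij k^{ij} Γ^l_ij = - ∑_i ∂_i k^{il}` (Christoffel
symbols, `∂ k^{-1} = - k^{-1} ∂k k^{-1}`, `tr(k^{-1} ∂_l k) = ∂_l log det k = 0`), so
`Δ_k h = ∑_l ∂_l (∑_j k^{lj} ∂_j h)`; apply IBT to `e^{rh} ∑_j k^{lj} ∂_j h` for each `l`. -/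
def IbkStmt : Prop := ∀ (m : ℕ) (k : Coord m) (D : ℝ) (h : (Fin m → ℝ) → ℝ) (r : ℝ), Met k →
  (∀ t l, k (t + Pi.single l 1) = k t) → (∀ t, (Matrix.of (k t)).det = D) → ContDiff ℝ ∞ h →
  (∀ t l, h (t + Pi.single l 1) = h t) →
  tI (fun t => Real.exp (r * h t) * lapM k h t) = -r * tI (fun t => Real.exp (r * h t) * gip k h h t)

/-- CT3. Continuity in `t` (the inverse matrix as in CNS, Helper17_BCS/CNS.lean), and `|∇h|² ≥ 0`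
(the inverse of a positive definite matrix is positive definite). -/
def Ct3Stmt : Prop := ∀ (m : ℕ) (k : Coord m) (h : (Fin m → ℝ) → ℝ), Met k → ContDiff ℝ ∞ h →
  Continuous (scal k) ∧ Continuous (lapM k h) ∧ Continuous (gip k h h) ∧ ∀ t, 0 ≤ gip k h h t

/-- SC3. From BLG, CNF, LCF, TRJ. `h = e^{2βχ} k`, `log √det h = F + mβχ`,
`h⁻¹ ∂_a h = 2βχ_a + k⁻¹ ∂_a k`, `(1/4) tr((h⁻¹∂_a h)²) = mβ²χ_a² + 2βχ_a F_a + (1/4) tr((k⁻¹∂_a k)²)`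
(`tr(k⁻¹ ∂_a k) = 2F_a`), TRJ for `k` (`lvol k = F`): with `|∇F + mβ∇χ|²` the base terms are at most
`-((m+1)/m) |∇(F + mβχ)|²`. Fibre terms: `Sc_h - 4Δ_hU - 6|∇_hU|²` with `U = φ + αχ` is
`e^{-2βχ} (Sc_k - 2κ Δ_kχ - Λ |∇χ|²_k)`. -/
def Sc3Stmt : Prop := ∀ (m : ℕ) (φ F : ℂ → ℝ) (k : ℂ → Coord m) (χ : ℂ → (Fin m → ℝ) → ℝ)
  (α β : ℝ), 1 ≤ m → ContDiff ℝ ∞ φ → ContDiff ℝ ∞ F → FibM k → SmP χ →
  (∀ z t, (Matrix.of (k z t)).det = Real.exp (2 * F z)) → ∀ y : Fin (m + 2) → ℝ,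
  Real.exp (2 * φ (pr y) + 2 * α * χ (pr y) (tl y)) * scal (mt3 φ k χ α β) y ≤
    sc3 φ F k χ α β (pr y) (tl y)

/-- HM3. Mean curvature of the boundary for `blkU` (twin of HMB, Helper46_BCS/HMB.lean). -/
def Hm3Stmt : Prop := ∀ (m : ℕ) (U : ℂ → (Fin m → ℝ) → ℝ) (h : ℂ → Coord m),
  ContDiff ℝ ∞ (fun p : ℂ × (Fin m → ℝ) => U p.1 p.2) → FibM h →
  ∀ y : Fin (m + 2) → ℝ, ‖pr y‖ = 1 → meanCurv (blkU U h) y =
    Real.exp (-U (pr y) (tl y)) * (1 + rad (fun z => U z (tl y)) (pr y)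
      + rad (fun z => lvol h z (tl y)) (pr y))

/-- HC3. From HM3: the case `mt3` (`lvol h = F + mβχ`). -/
def Hc3Stmt : Prop := ∀ (m : ℕ) (φ F : ℂ → ℝ) (k : ℂ → Coord m) (χ : ℂ → (Fin m → ℝ) → ℝ)
  (α β : ℝ), ContDiff ℝ ∞ φ → ContDiff ℝ ∞ F → FibM k → SmP χ →
  (∀ z t, (Matrix.of (k z t)).det = Real.exp (2 * F z)) → ∀ y : Fin (m + 2) → ℝ, ‖pr y‖ = 1 →
  meanCurv (mt3 φ k χ α β) y = Real.exp (-(φ (pr y) + α * χ (pr y) (tl y))) *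
    (1 + rad φ (pr y) + rad F (pr y) + (α + m * β) * rad (fun z => χ z (tl y)) (pr y))

/-- LN3. The curves `t = const` (twin of LNB). -/
def Ln3Stmt : Prop := ∀ (m : ℕ) (U : ℂ → (Fin m → ℝ) → ℝ) (h : ℂ → Coord m) (t : Fin m → ℝ),
  ∃ γ : ℝ → Fin (m + 2) → ℝ, IsAdm γ ∧ (∀ θ, pr (γ θ) = cp θ ∧ tl (γ θ) = t) ∧
    len (blkU U h) γ = cI (fun z => Real.exp (U z t))

/-- the hypotheses on the functions -/
structure Hyp3 {m : ℕ} (M : ℝ) (φ F : ℂ → ℝ) (k : ℂ → Coord m) (χ : ℂ → (Fin m → ℝ) → ℝ)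
    (α β : ℝ) : Prop where
  hm : 1 ≤ m
  hM : (m : ℝ) + 1 < M
  hφ : ContDiff ℝ ∞ φ
  hF : ContDiff ℝ ∞ F
  hk : FibM k
  hχ : SmP χ
  hdet : ∀ z t, (Matrix.of (k z t)).det = Real.exp (2 * F z)
  hneg : ∀ z, ‖z‖ ≤ 1 → ∀ t, scal (k z) t ≤ 0
  hαβ : 0 ≤ α + m * β
  hκ : 0 ≤ kap3 m α β
  hsc : ∀ z, ‖z‖ ≤ 1 → ∀ t, -(((m : ℝ) + 2) * (m + 1)) * Real.exp (2 * φ z + 2 * α * χ z t) ≤
    sc3 φ F k χ α β z t
  hbd : ∀ z, ‖z‖ = 1 → ∀ t, M * Real.exp (φ z + α * χ z t) ≤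
    1 + rad φ z + rad F z + (α + m * β) * rad (fun z => χ z t) z

/-- AV3. From AVD, IBK, CT3 (twin of AVI, Helper21_BCS/AVI.lean). Mean `E = mn q χ` of `hsc` and `hbd`,
`X = lm q χ`. Fibre part: `E[e^{2(α-β)χ} Sc_k] ≤ 0`, and by IBK with `r = q + 2(α-β)`
`∫ e^{rχ}(-2κ Δ_kχ - Λ|∇χ|²) = (2κr - Λ) ∫ e^{rχ}|∇χ|² ≤ 0` because
`Λ - 2κr = (-2κq) - 2α² + 4αβ + (m-1)(m+2)β²` and `-2κq ≥ κ(2α - (m+1)β)`,
`κ((m+1)β - 2α) = -4α² + 4αβ + (m²-1)β²`, the difference is `2α² + (m-1)β² ≥ 0`.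
Base part: `E lap χ = lap X - q (E|∇χ|² - |∇X|²)`, `E (F_a + mβχ_a)² = (F_a + mβX_a)² + m²β² Var`,
coefficient of the variance `2(α+mβ)q - m(m+1)β² ≤ 0`. -/
def Av3Stmt : Prop := ∀ (m : ℕ) (M : ℝ) (φ F : ℂ → ℝ) (k : ℂ → Coord m)
  (χ : ℂ → (Fin m → ℝ) → ℝ) (α β q : ℝ), Hyp3 M φ F k χ α β → q < 0 →
  2 * q ≤ ((m : ℝ) + 1) * β - 2 * α →
  (∀ z, ‖z‖ ≤ 1 → 0 ≤ -lap (fun z => φ z + α * lm q χ z) z
      - lap (fun z => F z + m * β * lm q χ z) z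
      - ((m : ℝ) + 1) / (2 * m) * grad2 (fun z => F z + m * β * lm q χ z) z
      + ((m : ℝ) + 2) * (m + 1) / 2 * Real.exp (2 * φ z)
        * mn q χ (fun z t => Real.exp (2 * α * χ z t)) z) ∧
  ∀ z, ‖z‖ = 1 → M * Real.exp (φ z) * mn q χ (fun z t => Real.exp (α * χ z t)) z ≤
    1 + rad (fun z => φ z + α * lm q χ z) z + rad (fun z => F z + m * β * lm q χ z) z

end Pool.Agent.BCS
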