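import Pool.Agent.BCS.Stmts3

/-!
# Statements of squad BCS, part 4 (leader helper82, MP_fb4904_gt): neighbourhoods in the C² topology
-/

noncomputable section

open scoped ContDiff Topology
open Set MeasureTheory

namespace Pool.Agent.BCS

open Pool.Agent.SecondKind (Coord pd inv christoffel ricci)

/-- The components of the metrics `g` and `g₀` and their partial derivatives of order at most two
differ by at most `ε` at `y` -/
def C2Close {n : ℕ} (ε : ℝ) (g g₀ : Coord n) (y : Fin n → ℝ) : Prop := ∀ i j,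
  |g y i j - g₀ y i j| ≤ ε ∧
  (∀ k, |pd k (fun x => g x i j) y - pd k (fun x => g₀ x i j) y| ≤ ε) ∧
  ∀ k l, |pd l (pd k (fun x => g x i j)) y - pd l (pd k (fun x => g₀ x i j)) y| ≤ ε

/-- SCT. The scalar curvature at `y` is a continuous function of the 2-jet of the metric. With
`a = (g_ij)`, `b = (∂_k g_ij)`, `c = (∂_l ∂_k g_ij)` at `y` and `A = a⁻¹`: `Γ^k_ij` is the usual expression
in `A, b`; `∂_l g^{kp} = - ∑ A^{kr} b_{l,rs} A^{sp}` (derivative of the inverse matrix), so `∂_l Γ^k_ij`,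
`curv`, `ricci`, `scal` are polynomials in `A, b, c`; the inverse is continuous at `a₀`, `det a₀ ≠ 0`
(epsilon-delta version of continuity at one point). -/
def SctStmt : Prop := ∀ (n : ℕ) (g₀ : Coord n) (y : Fin n → ℝ) (η : ℝ), Met g₀ → 0 < η →
  ∃ ε > 0, ∀ g : Coord n, Met g → C2Close ε g g₀ y → |scal g y - scal g₀ y| ≤ η

/-- MCT. The mean curvature at a boundary point is a continuous function of the 1-jet of the metric
(`ν^k = A^{kj} ρ_j / √(A^{ij} ρ_i ρ_j)`, `ρ_j = drho`, differentiate; the root is positive at `y`). -/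
def MctStmt : Prop := ∀ (m : ℕ) (g₀ : Coord (m + 2)) (y : Fin (m + 2) → ℝ) (η : ℝ), Met g₀ →
  y 0 ^ 2 + y 1 ^ 2 = 1 → 0 < η →
  ∃ ε > 0, ∀ g : Coord (m + 2), Met g → C2Close ε g g₀ y → |meanCurv g y - meanCurv g₀ y| ≤ η

/-- LCT. `√a ≤ √b + √|a - b|`; `γ'` is bounded on `[0, 2π]`, so
`len g γ ≤ len g₀ γ + 2π √(ε C)`, `C = sup (∑ |γ_i'|)²`. -/
def LctStmt : Prop := ∀ (m : ℕ) (g₀ : Coord (m + 2)) (γ : ℝ → Fin (m + 2) → ℝ) (δ : ℝ), Met g₀ →
  IsAdm γ → 0 < δ → ∃ ε > 0, ∀ g : Coord (m + 2), Met g →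
    (∀ y : Fin (m + 2) → ℝ, y 0 ^ 2 + y 1 ^ 2 = 1 → ∀ i j, |g y i j - g₀ y i j| ≤ ε) →
    len g γ ≤ len g₀ γ + δ

/-- MDG. The metrics of parts 1, 2 and 3 are smooth and positive definite (diagonal and block
matrices) on `ℝ^{m+2}`, and periodic in the last `m` variables. -/
def MdgStmt : Prop :=
  (∀ (m : ℕ) (φ : ℂ → ℝ) (f : Fin m → ℂ → ℝ) (χ : ℂ → (Fin m → ℝ) → ℝ) (α : ℝ) (β : Fin m → ℝ),
    ContDiff ℝ ∞ φ → (∀ i, ContDiff ℝ ∞ (f i)) → SmP χ →
    Met (Pool.Agent.RLim.H58.dg (uu φ f χ α β))) ∧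
  ∀ (m : ℕ) (U : ℂ → (Fin m → ℝ) → ℝ) (h : ℂ → Coord m),
    ContDiff ℝ ∞ (fun p : ℂ × (Fin m → ℝ) => U p.1 p.2) → FibM h → Met (blkU U h)

end Pool.Agent.BCS
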